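import Pool.Agent.Helper45.AM.GoalsC

/-!
# Project AM (MP_cc6379_al), packet AM-C7b: all the rewritings.
-/

set_option autoImplicit false

open LaurentPolynomial Pool.Agent.Helper15.RA Pool.Agent.Helper45.AM

noncomputable section

namespace Pool.Agent.Helper82.AM

theorem h_c_7b (b1 : B_1) (c5 : C_5) (c6 : C_6) : Pool.Agent.Helper45.AM.C_7b := by
  intro S W H _ _ _ X x k y hadm hk hxy
  obtain ⟨-, -, h3, h4, -, -, -, -, h9, -⟩ := b1 S W H X
  have oR : ∀ b, XR X.cs (X.F b) 1 := fun b i _ => by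
    rw [one_mul, X.cs.length_simple, X.cs.length_one]
  have oL : ∀ b, XL X.cs (X.F b) 1 := fun b i _ => by
    rw [mul_one, X.cs.length_simple, X.cs.length_one]
  have hx : XR X.cs X.K x ∧ XL X.cs X.K y := by
    rcases hadm with ⟨b, hx, -, hy⟩ | ⟨hx, -, hy⟩
    · exact ⟨(h3 b x).1 hx, (h3 b y).2 hy⟩
    · exact ⟨hx, hy⟩
  obtain ⟨b, hb⟩ := h4 x hx.1
  obtain ⟨c, hc⟩ := h9 y hx.2
  by_cases hcb : c = b
  · subst hcb
    by_cases hx1 : x = 1
    · refine c5 S W H X (!c) x k y ?_ hk ?_ hxy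
      · rw [hx1]
        exact oR _
      · rw [Bool.not_not]
        exact hc
    · by_cases hy1 : y = 1
      · refine c5 S W H X c x k y hb hk ?_ hxy
        rw [hy1]
        exact oL _
      · exact c6 S W H X c x k y hb hk hc hx1 hy1
  · have hcb' : c = !b := by
      cases c <;> cases b <;> simp_all
    subst hcb'
    exact c5 S W H X b x k y hb hk hc hxy

end Pool.Agent.Helper82.AM
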