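import Pool.Agent.Helper45.AM.GoalsA
import Pool.Agent.Helper45.AM.GoalsE

/-!
# Project AM (MP_cc6379_al), packet AM-E5: leading coordinates in the basis `c`.
-/

set_option autoImplicit false

open LaurentPolynomial Pool.Agent.Helper15.RA Pool.Agent.Helper45.AM

noncomputable section

namespace Pool.Agent.Helper82.AM

theorem repr_sum' {W H : Type} [Ring H] [Algebra ℤ[T;T⁻¹] H]
    (b : Module.Basis W ℤ[T;T⁻¹] H) (q : W →₀ ℤ[T;T⁻¹]) (f : W → H) (u : W) :
    b.repr (q.sum fun v p => p • f v) u = ∑ v ∈ q.support, q v * b.repr (f v) u := by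
  rw [Finsupp.sum, map_sum, Finsupp.finsetSum_apply]
  refine Finset.sum_congr rfl fun v _ => ?_
  rw [map_smul, Finsupp.smul_apply, smul_eq_mul]

theorem h_e_5 (aB : A_B) (b1 : B_1) (b3 : B_3) (c2 : C_2) (d1 : D_1) :
    Pool.Agent.Helper45.AM.E_5 := by
  intro S W H _ _ _ X b x g' y u hx hg hy hu
  obtain ⟨h1, -⟩ := b1 S W H X
  obtain ⟨s1, -, -, -, -, -, s7, -⟩ := b3 S W H X
  obtain ⟨-, -, -, d4, d5⟩ := d1 S W H X
  obtain ⟨-, a1, a2, -, -, -⟩ := aB S W H X.toBase
  have hK : ∀ k, k ∈ par X.cs X.K → X.b.repr (X.B x k y) u = 0 := by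
    intro k hk
    by_contra hne
    have h2 := (d4 (X.nn x k y) (X.B x k y)).1
      (d5 x k y (Or.inl ⟨b, hx, h1 b hk, hy⟩)) u hne
    have h3 : X.nn x k y = X.sl x + 0 + X.sl y := by
      unfold AC.nn
      rw [if_pos hk]
    rw [h3] at h2
    omega
  by_cases hgK : g' ∈ par X.cs X.K
  · have h0 := hK g' hgK
    constructor
    · intro hu'
      exfalso
      have h4 := s7 (x * g') y
      have h5 := s7 x g'
      have h6 := (s1 g').2 hgK
      rw [hu'] at hu
      omega
    · intro _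
      rw [h0]
      rfl
  · obtain ⟨q, π, hq, hπ, hB⟩ := c2 S W H X b x g' y ⟨hx, hg, hgK, hy⟩
    have e : X.b.repr (X.B x g' y) u = X.b.repr (X.D.t (x * g' * y)) u +
        ∑ v ∈ q.support, q v * X.b.repr (X.D.t v) u := by
      rw [hB, map_add, map_add, Finsupp.add_apply, Finsupp.add_apply, repr_sum', repr_sum']
      have : ∑ v ∈ π.support, π v * X.b.repr (X.B x v y) u = 0 :=
        Finset.sum_eq_zero fun v hv => by rw [hK v (hπ v hv).1, mul_zero]
      rw [this, add_zero]
    have hd : ∀ v, DegLE 0 (X.b.repr (X.D.t v) u) := by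
      intro v
      by_cases huv : u = v
      · subst huv
        rw [a1]
        exact DegLE.one le_rfl
      · exact (a2 v u huv).mono (by norm_num)
    have hs : DegLE (-1) (∑ v ∈ q.support, q v * X.b.repr (X.D.t v) u) :=
      DegLE.sum fun v hv => DegLE.mul_le (hq v hv).2.2 (hd v) (by norm_num)
    rw [e, AddMonoidAlgebra.coeff_add, Finsupp.add_apply, hs 0 (by norm_num), add_zero]
    constructor
    · intro hu'
      rw [hu', a1, ← T_zero, T_apply, if_pos rfl]
    · intro hu'
      exact a2 _ _ hu' 0 (by norm_num)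

end Pool.Agent.Helper82.AM
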