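import Pool.Agent.Helper15.AM.GoalsG

/-!
# Project AM (MP_cc6379_al), packet AM-U: (U) holds for finite `W`.
-/

set_option autoImplicit false

open LaurentPolynomial Pool.Agent.Helper15.RA Pool.Agent.Helper45.AM

noncomputable section

namespace Pool.Agent.Helper82.AM

section u

variable {S W H : Type} [Group W] [Ring H] [Algebra ℤ[T;T⁻¹] H] {M : CoxeterMatrix S} {cs : CoxeterSystem M W}
  {L : W → ℕ}

/-- `τ(Z Z')` in terms of the `T`-coordinates. -/
theorem tau_mul [Fintype W] (h1 : H_1) (D : Hecke cs L H) (A B : H) :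
    D.t.repr (A * B) 1 = ∑ u : W, D.t.repr A u * D.t.repr B u⁻¹ := by
  classical
  obtain ⟨-, -, -, -, -, -, ht1, ht0⟩ := h1 S W H M cs L D.toHecke0
  have eA : A = ∑ u : W, D.t.repr A u • D.t u := (D.t.sum_repr A).symm
  have eB : B = ∑ u : W, D.t.repr B u • D.t u := (D.t.sum_repr B).symm
  have e : A * B = ∑ u : W, ∑ w : W, (D.t.repr A u * D.t.repr B w) • (D.t u * D.t w) := by
    conv_lhs => rw [eA, eB]
    rw [Finset.sum_mul_sum]
    refine Finset.sum_congr rfl fun u _ => Finset.sum_congr rfl fun w _ => ?_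
    rw [smul_mul_smul_comm]
  rw [e, map_sum, Finsupp.finsetSum_apply]
  refine Finset.sum_congr rfl fun u _ => ?_
  rw [map_sum, Finsupp.finsetSum_apply, Finset.sum_eq_single u⁻¹]
  · rw [map_smul, Finsupp.smul_apply, smul_eq_mul]
    have := ht1 u u⁻¹ (mul_inv_cancel u)
    rw [this, mul_one]
  · intro w _ hw
    rw [map_smul, Finsupp.smul_apply, smul_eq_mul]
    have := ht0 u w fun h => hw (eq_inv_of_mul_eq_one_right h)
    rw [this, mul_zero]
  · intro h
    exact absurd (Finset.mem_univ _) h

/-- `n_z`, the coefficient of `v^(-a(z))` in `τ(c_z)`. -/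
def nz (D : Hecke cs L H) (a : W → ℕ) (z : W) : ℤ := (D.t.repr (D.c z) 1).coeff (-(a z : ℤ))

open Classical in
/-- `∑_z γ(x,y,z) n_z = 1` if `x y = 1`, `0` otherwise. -/
theorem sum_gam [Fintype W] (h1 : H_1) (h2 : H_2) (hL : IsWeight cs L) (D : Hecke cs L H)
    {h : W → W → W →₀ ℤ[T;T⁻¹]} {a : W → ℕ} (hg : Good D h a) (x y : W) :
    ∑ z : W, gam h a x y z * nz D a z = if x * y = 1 then 1 else 0 := by
  obtain ⟨-, -, -, hc1, -, hcl, -⟩ := h2 S W H M cs L hL D
  have hco : ∀ w u : W, (D.t.repr (D.c w) u).coeff 0 = if u = w then 1 else 0 := by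
    intro w u
    split_ifs with huw
    · rw [huw, hc1 w, ← T_zero, T_apply, if_pos rfl]
    · exact hcl w u huw 0 (by norm_num)
  have hde : ∀ w u : W, DegLE 0 (D.t.repr (D.c w) u) := by
    intro w u
    by_cases huw : u = w
    · rw [huw, hc1 w]
      exact DegLE.one le_rfl
    · exact (hcl w u huw).mono (by norm_num)
  have e1 : D.t.repr (D.c x * D.c y) 1 = ∑ z : W, h x y z * D.t.repr (D.c z) 1 := by
    have e0 : ((h x y).sum fun z p => p • D.c z) = ∑ z : W, h x y z • D.c z :=
      Finsupp.sum_fintype _ _ fun z => zero_smul _ _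
    rw [hg.isH x y, e0, map_sum, Finsupp.finsetSum_apply]
    refine Finset.sum_congr rfl fun z _ => ?_
    rw [map_smul, Finsupp.smul_apply, smul_eq_mul]
  have e2 := tau_mul h1 D (D.c x) (D.c y)
  have e3 : (D.t.repr (D.c x * D.c y) 1).coeff 0 = ∑ z : W, gam h a x y z * nz D a z := by
    rw [e1, AddMonoidAlgebra.coeff_sum, Finsupp.finsetSum_apply]
    refine Finset.sum_congr rfl fun z _ => ?_
    have h3 := coeff_mul_top ((hg.isA z).1 x y) (hg.p1 z)
    rw [add_neg_cancel] at h3
    exact h3
  have e4 : (D.t.repr (D.c x * D.c y) 1).coeff 0 = if x * y = 1 then 1 else 0 := by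
    rw [e2, AddMonoidAlgebra.coeff_sum, Finsupp.finsetSum_apply, Finset.sum_eq_single x]
    · have h3 := coeff_mul_top (hde x x) (hde y x⁻¹)
      rw [add_zero] at h3
      rw [h3, hco, hco, if_pos rfl, one_mul]
      have : x⁻¹ = y ↔ x * y = 1 := by
        constructor
        · rintro rfl
          exact mul_inv_cancel x
        · intro h
          exact (eq_inv_of_mul_eq_one_right h).symm
      simp only [this]
    · intro u _ hu
      have h3 := coeff_mul_top (hde x u) (hde y u⁻¹)
      rw [add_zero] at h3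
      rw [h3, hco, if_neg hu, zero_mul]
    · intro h
      exact absurd (Finset.mem_univ _) h
  rw [← e3, e4]

/-- The coordinates of a product in `J`, when `W` is finite. -/
theorem jmul_apply [Fintype W] {h : W → W → W →₀ ℤ[T;T⁻¹]} {a : W → ℕ} (p q : W →₀ ℤ) (u : W) :
    jmul h a p q u = ∑ x : W, ∑ y : W, p x * q y * gam h a x y u := by
  classical
  unfold jmul
  rw [Finsupp.sum_fintype _ _ fun x => ?_, Finsupp.finsetSum_apply]
  · refine Finset.sum_congr rfl fun x _ => ?_
    rw [Finsupp.sum_fintype _ _ fun y => ?_, Finsupp.finsetSum_apply]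
    · refine Finset.sum_congr rfl fun y _ => ?_
      rw [Finsupp.finsetSum_apply, Finset.sum_eq_single u]
      · rw [Finsupp.single_eq_same]
      · intro z _ hz
        rw [Finsupp.single_apply, if_neg hz]
      · intro hu
        rw [Finsupp.single_eq_same]
        have : gam h a x y u = 0 := by
          unfold gam
          rw [Finsupp.notMem_support_iff.1 hu]
          rfl
        rw [this, mul_zero]
    · refine Finset.sum_eq_zero fun z _ => ?_
      rw [mul_zero, zero_mul, Finsupp.single_zero]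
  · refine Finset.sum_eq_zero fun z _ => ?_
    simp

/-- Associativity of `J` in terms of the `γ`. -/
theorem gam_assoc [Fintype W] {h : W → W → W →₀ ℤ[T;T⁻¹]} {a : W → ℕ} (hJ : JAssoc h a) (x y z u : W) :
    ∑ w : W, gam h a x y w * gam h a w z u = ∑ w : W, gam h a y z w * gam h a x w u := by
  classical
  have h1 := DFunLike.congr_fun (hJ (Finsupp.single x 1) (Finsupp.single y 1) (Finsupp.single z 1)) u
  have e : ∀ x y w : W, jmul h a (Finsupp.single x 1) (Finsupp.single y 1) w = gam h a x y w := by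
    intro x y w
    rw [jmul_apply, Finset.sum_eq_single x, Finset.sum_eq_single y]
    · rw [Finsupp.single_eq_same, Finsupp.single_eq_same, one_mul, one_mul]
    · intro z _ hz
      rw [Finsupp.single_apply (a := y), if_neg (Ne.symm hz), mul_zero, zero_mul]
    · intro h
      exact absurd (Finset.mem_univ _) h
    · intro z _ hz
      refine Finset.sum_eq_zero fun z' _ => ?_
      rw [Finsupp.single_apply, if_neg (Ne.symm hz), zero_mul, zero_mul]
    · intro h
      exact absurd (Finset.mem_univ _) h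
  rw [jmul_apply, jmul_apply] at h1
  have e1 : (∑ w : W, ∑ z' : W, jmul h a (Finsupp.single x 1) (Finsupp.single y 1) w *
      (Finsupp.single z (1 : ℤ)) z' * gam h a w z' u) = ∑ w : W, gam h a x y w * gam h a w z u := by
    refine Finset.sum_congr rfl fun w _ => ?_
    rw [Finset.sum_eq_single z, e, Finsupp.single_eq_same, mul_one]
    · intro z' _ hz
      rw [Finsupp.single_apply, if_neg (Ne.symm hz), mul_zero, zero_mul]
    · intro h
      exact absurd (Finset.mem_univ _) h
  have e2 : (∑ x' : W, ∑ w : W, (Finsupp.single x (1 : ℤ)) x' *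
      jmul h a (Finsupp.single y 1) (Finsupp.single z 1) w * gam h a x' w u) =
      ∑ w : W, gam h a y z w * gam h a x w u := by
    rw [Finset.sum_eq_single x]
    · refine Finset.sum_congr rfl fun w _ => ?_
      rw [e, Finsupp.single_eq_same, one_mul]
    · intro z' _ hz
      refine Finset.sum_eq_zero fun w _ => ?_
      rw [Finsupp.single_apply, if_neg (Ne.symm hz), zero_mul, zero_mul]
    · intro h
      exact absurd (Finset.mem_univ _) h
  rw [e1, e2] at h1
  exact h1

/-- `γ_(x,y,z) = γ_(y,z,x)` -/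
theorem gam_cyc [Fintype W] (h1 : H_1) (h2 : H_2) (hL : IsWeight cs L) (D : Hecke cs L H)
    {h : W → W → W →₀ ℤ[T;T⁻¹]} {a : W → ℕ} (hg : Good D h a) (hJ : JAssoc h a) (x y z : W) :
    gam h a x y z⁻¹ = gam h a y z x⁻¹ := by
  classical
  have e1 : ∑ u : W, (∑ w : W, gam h a x y w * gam h a w z u) * nz D a u = gam h a x y z⁻¹ := by
    have : ∀ u, (∑ w : W, gam h a x y w * gam h a w z u) * nz D a u =
        ∑ w : W, gam h a x y w * (gam h a w z u * nz D a u) := by
      intro u
      rw [Finset.sum_mul]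
      exact Finset.sum_congr rfl fun w _ => mul_assoc _ _ _
    simp only [this]
    rw [Finset.sum_comm]
    simp only [← Finset.mul_sum, sum_gam h1 h2 hL D hg]
    rw [Finset.sum_eq_single z⁻¹]
    · rw [if_pos (inv_mul_cancel z), mul_one]
    · intro w _ hw
      rw [if_neg fun h => hw (eq_inv_of_mul_eq_one_left h), mul_zero]
    · intro h
      exact absurd (Finset.mem_univ _) h
  have e2 : ∑ u : W, (∑ w : W, gam h a y z w * gam h a x w u) * nz D a u = gam h a y z x⁻¹ := by
    have : ∀ u, (∑ w : W, gam h a y z w * gam h a x w u) * nz D a u =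
        ∑ w : W, gam h a y z w * (gam h a x w u * nz D a u) := by
      intro u
      rw [Finset.sum_mul]
      exact Finset.sum_congr rfl fun w _ => mul_assoc _ _ _
    simp only [this]
    rw [Finset.sum_comm]
    simp only [← Finset.mul_sum, sum_gam h1 h2 hL D hg]
    rw [Finset.sum_eq_single x⁻¹]
    · rw [if_pos (mul_inv_cancel x), mul_one]
    · intro w _ hw
      rw [if_neg fun h => hw (eq_inv_of_mul_eq_one_right h), mul_zero]
    · intro h
      exact absurd (Finset.mem_univ _) h
  rw [← e1, ← e2]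
  exact Finset.sum_congr rfl fun u _ => by rw [gam_assoc hJ]

end u

theorem h_u1 (h1 : H_1) (h2 : H_2) (hj : H_J) : Pool.Agent.Helper15.AM.U_1 := by
  classical
  intro S W H _ _ _ _ M cs L hL D h a hg g
  haveI := Fintype.ofFinite W
  have hJ : JAssoc h a := hj S W H M cs L hL D h a hg
  refine ⟨∑ d : W, Finsupp.single (d⁻¹, g) (nz D a d), fun z => ?_⟩
  rw [← Finsupp.sum_finsetSum_index (fun _ => zero_mul _) (fun _ _ _ => add_mul _ _ _)]
  have e : ∀ d : W, ((Finsupp.single (d⁻¹, g) (nz D a d)).sum fun p m => m * gam h a p.1 p.2 z) =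
      gam h a g z⁻¹ d * nz D a d := by
    intro d
    rw [Finsupp.sum_single_index (zero_mul _)]
    have h3 := gam_cyc h1 h2 hL D hg hJ d⁻¹ g z⁻¹
    rw [inv_inv, inv_inv] at h3
    show nz D a d * gam h a d⁻¹ g z = _
    rw [h3, mul_comm]
  simp only [e]
  rw [sum_gam h1 h2 hL D hg]
  have : g * z⁻¹ = 1 ↔ z = g := by
    rw [mul_inv_eq_one, eq_comm]
  simp only [this]

end Pool.Agent.Helper82.AM
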